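import Pool.Agent.V8H62.Nod.Eigen

/-!
# MP_52cbbb_an, Q1: maximal nodal counts in two-dimensional Neumann eigenspaces of the square

The statement is proved: for every eigenvalue `lam` whose eigenspace has dimension two, the maximal
number of nodal domains is attained at one of `θ = 0, π/4, π/2, 3π/4, π`.

Definitions (in `Pool.Agent.V8H62.Nod`):
* `Om` is the open square `(0,π) × (0,π)`;
* `nodalCount u : ℕ∞` is the number of connected components of `{z ∈ Om | u z ≠ 0}`;
* `E lam` is the real span of the functions `cos mx cos ny` with `m, n : ℕ`, `m² + n² = lam`;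
* `Phi p q θ` is `cos θ cos px cos qy + sin θ cos qx cos py`.
-/

set_option autoImplicit false

open Pool.Agent.V8H62.Nod Real

/-- **Q1 holds.** -/
theorem Pool.Agent.Results.MP_52cbbb_an.NodalMaxTwoDim.result :
    ∀ lam : ℕ, Module.finrank ℝ (E lam) = 2 →
      ∃ p q : ℕ, q < p ∧
        (∀ m n : ℕ, m ^ 2 + n ^ 2 = lam ↔ (m = p ∧ n = q) ∨ (m = q ∧ n = p)) ∧
        IsGreatest {k : ℕ∞ | ∃ u ∈ E lam, u ≠ 0 ∧ nodalCount u = k}
          (max (nodalCount (Phi p q 0)) (max (nodalCount (Phi p q (π / 4)))
            (max (nodalCount (Phi p q (π / 2)))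
              (max (nodalCount (Phi p q (3 * π / 4))) (nodalCount (Phi p q π)))))) :=
  fun _ h => main h
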